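import Pool.Agent.R999.Rem.Main

/-!
# The `g₃` term of the EBLUP in the crossed random effects model

`g₃ = O(m_*⁻²)`, so `g₃ = s + o(m_*⁻¹)` with `s = 0`.
-/

set_option autoImplicit false

open MeasureTheory Filter Topology Matrix

namespace Pool.Agent.Results.MP_ca614b_pr.ThirdTermNegligible

open Pool.Agent.R999.Rem

/-- The type of the functions `s(θ, κ; m₁, m₂, a₀, a₁, a₂)`. -/
abbrev Approx := ∀ (_θ _κ : Par) (m1 m2 : ℕ), ℝ → (Fin m1 → ℝ) → (Fin m2 → ℝ) → ℝ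

/-- `g₃ = s + o(m_*⁻¹)` for all laws and all coefficient sequences of the problem. -/
def Good (s : Approx) : Prop :=
  ∀ (θ κ : Par) (F : Fin 3 → Measure ℝ) (μ C : ℝ), (∀ k, 0 < θ k) → Laws F θ κ →
    ∀ (m1 m2 : ℕ → ℕ) (a0 : ℕ → ℝ) (a1 : ∀ N, Fin (m1 N) → ℝ) (a2 : ∀ N, Fin (m2 N) → ℝ),
      Tendsto (fun N => min (m1 N) (m2 N)) atTop atTop →
      (∀ N, CoefBd C (a0 N) (a1 N) (a2 N)) →
      Tendsto (fun N => ((min (m1 N) (m2 N) : ℕ) : ℝ) *
        |g3 F μ θ (a0 N) (a1 N) (a2 N) - s θ κ (m1 N) (m2 N) (a0 N) (a1 N) (a2 N)|) atTop (𝓝 0)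

/-- Everything in the definition of `g₃` is meaningful: `l` and `ζ̃` are smooth at `θ`, the Hessian
of `l` is integrable, `A` is invertible and `(h' A⁻¹ b)²` is integrable. -/
def WellDefined (F : Fin 3 → Measure ℝ) (μ : ℝ) (θ : Par) {m1 m2 : ℕ} (a0 : ℝ) (a1 : Fin m1 → ℝ)
    (a2 : Fin m2 → ℝ) : Prop :=
  (∀ y : Obs m1 m2 → ℝ, ContDiffAt ℝ 2 (reml y) θ ∧ ContDiffAt ℝ 1 (blup a0 a1 a2 y) θ) ∧
  (∀ j k, Integrable (fun ω => hess (obs μ ω) θ j k) (law m1 m2 F)) ∧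
  IsUnit (A m1 m2 F μ θ).det ∧ Integrable (fun ω => hAb F μ θ a0 a1 a2 ω ^ 2) (law m1 m2 F)

/-- **The `g₃` term is negligible.**  The function `s = 0` answers the question; in fact, for all
laws and all bounds `C` there is a constant `K` with `g₃ ≤ K / m_*²` for all `m₁, m₂ ≥ 2`, all `μ`
and all coefficients bounded by `C`. -/
theorem result :
    Good (fun _ _ _ _ _ _ _ => 0) ∧
    ∀ (θ κ : Par) (F : Fin 3 → Measure ℝ) (C : ℝ), (∀ k, 0 < θ k) → Laws F θ κ →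
      ∃ K : ℝ, ∀ (μ : ℝ) (m1 m2 : ℕ), 2 ≤ m1 → 2 ≤ m2 →
        ∀ (a0 : ℝ) (a1 : Fin m1 → ℝ) (a2 : Fin m2 → ℝ), CoefBd C a0 a1 a2 →
          WellDefined F μ θ a0 a1 a2 ∧ 0 ≤ g3 F μ θ a0 a1 a2 ∧
            g3 F μ θ a0 a1 a2 ≤ K / ((min m1 m2 : ℕ) : ℝ) ^ 2 := by
  have hnn : ∀ (F : Fin 3 → Measure ℝ) (μ : ℝ) (θ : Par) (m1 m2 : ℕ) (a0 : ℝ) (a1 : Fin m1 → ℝ)
      (a2 : Fin m2 → ℝ), 0 ≤ g3 F μ θ a0 a1 a2 := fun F μ θ m1 m2 a0 a1 a2 =>
    integral_nonneg fun ω => sq_nonneg _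
  refine ⟨?_, ?_⟩
  · intro θ κ F μ C hθ hF m1 m2 a0 a1 a2 hm hC
    have hcast : Tendsto (fun N => ((min (m1 N) (m2 N) : ℕ) : ℝ)) atTop atTop :=
      tendsto_natCast_atTop_atTop.comp hm
    have hK : Tendsto (fun N => KK F θ κ C / ((min (m1 N) (m2 N) : ℕ) : ℝ)) atTop (𝓝 0) :=
      hcast.const_div_atTop _
    refine squeeze_zero' ?_ ?_ hK
    · filter_upwards with N
      positivity
    · filter_upwards [hm.eventually_ge_atTop 2] with N hN
      have h1 : 2 ≤ m1 N := hN.trans (min_le_left _ _)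
      have h2 : 2 ≤ m2 N := hN.trans (min_le_right _ _)
      have hb := (main h1 h2 hF hθ μ (hC N)).2
      have hM : (0:ℝ) < ((min (m1 N) (m2 N) : ℕ) : ℝ) := by
        have : 0 < min (m1 N) (m2 N) := by omega
        exact_mod_cast this
      rw [sub_zero, abs_of_nonneg (hnn _ _ _ _ _ _ _ _)]
      calc ((min (m1 N) (m2 N) : ℕ) : ℝ) * g3 F μ θ (a0 N) (a1 N) (a2 N)
          ≤ ((min (m1 N) (m2 N) : ℕ) : ℝ) *
            (KK F θ κ C / ((min (m1 N) (m2 N) : ℕ) : ℝ) ^ 2) :=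
            mul_le_mul_of_nonneg_left hb hM.le
        _ = KK F θ κ C / ((min (m1 N) (m2 N) : ℕ) : ℝ) := by field_simp
  · intro θ κ F C hθ hF
    refine ⟨KK F θ κ C, fun μ m1 m2 h1 h2 a0 a1 a2 hC => ?_⟩
    obtain ⟨hI, hb⟩ := main h1 h2 hF hθ μ hC
    refine ⟨⟨fun y => ?_, (A_eq h1 h2 hF hθ μ).1, A_unit h1 h2 hF hθ μ, hI⟩,
      hnn _ _ _ _ _ _ _ _, hb⟩
    have hm0 : 0 < m1 := by omega
    have hn0 : 0 < m2 := by omega
    have hev : ∀ᶠ t in 𝓝 θ, Pos t := by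
      refine (eventually_all).2 fun k => ?_
      exact (continuous_apply k).continuousAt.eventually (lt_mem_nhds (hθ k))
    have c0 : ContDiffAt ℝ 2 (fun t : Par => t 0) θ := by fun_prop
    have c1 : ContDiffAt ℝ 2 (fun t : Par => l1 m2 t) θ := by unfold l1; fun_prop
    have c2 : ContDiffAt ℝ 2 (fun t : Par => l2 m1 t) θ := by unfold l2; fun_prop
    have p0 : θ 0 ≠ 0 := (hθ 0).ne'
    have p1 : l1 m2 θ ≠ 0 := (l1_pos hθ).ne'
    have p2 : l2 m1 θ ≠ 0 := (l2_pos hθ).ne'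
    constructor
    · refine ContDiffAt.congr_of_eventuallyEq ?_ (hev.mono fun t ht => reml_eq hm0 hn0 ht y)
      exact contDiffAt_const.mul (((((contDiffAt_const.mul (c0.log p0)).add
        (contDiffAt_const.mul (c1.log p1))).add (contDiffAt_const.mul (c2.log p2))).add
        contDiffAt_const).add (((contDiffAt_const.div c0 p0).add
        (contDiffAt_const.div c1 p1)).add (contDiffAt_const.div c2 p2)))
    · refine ContDiffAt.congr_of_eventuallyEq ?_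
        (hev.mono fun t ht => blup_eq hm0 hn0 ht a0 a1 a2 y)
      have d0 := c0.of_le (m := 1) (by norm_num)
      have d1 := c1.of_le (m := 1) (by norm_num)
      have d2 := c2.of_le (m := 1) (by norm_num)
      exact (contDiffAt_const.add ((contDiffAt_const.sub (d0.div d1 p1)).mul
        contDiffAt_const)).add ((contDiffAt_const.sub (d0.div d2 p2)).mul contDiffAt_const)

end Pool.Agent.Results.MP_ca614b_pr.ThirdTermNegligible
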